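import Pool.Agent.Helper31.BC.Stmts

/-!
# Module CIRC: from extensions to circuits
-/

set_option autoImplicit false

namespace Pool.Agent.Helper31.BC

open Pool.Agent.Helper38.MR (Edge Graph Gate Simple out run)

theorem circ_run_append {E : Type} (d : E → ℝ) (C : List (Gate E)) (g : Gate E) :
    run d (C ++ [g]) = run d C ++ [g.val d (run d C)] := by
  unfold run
  rw [List.foldl_append]
  rfl

theorem circ_run_length {E : Type} (d : E → ℝ) (C : List (Gate E)) :
    (run d C).length = C.length := by
  induction C using List.reverseRecOn with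
  | nil => rfl
  | append_singleton C g ih => rw [circ_run_append]; simp [ih]

/-- value of gate `j` -/
noncomputable def circ_gv {m : ℕ} (C : List (Gate {F : Fn m // Simple F})) (j : ℕ)
    (x : Graph m) : ℝ := (run (fun e => e.1 x) C).getD j 0

theorem circ_gv_lt {m : ℕ} (C : List (Gate {F : Fn m // Simple F}))
    (g : Gate {F : Fn m // Simple F}) {j : ℕ} (hj : j < C.length) (x : Graph m) :
    circ_gv (C ++ [g]) j x = circ_gv C j x := by
  unfold circ_gv
  rw [circ_run_append, List.getD_append _ _ _ _ (by rw [circ_run_length]; exact hj)]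

theorem circ_gv_eq {m : ℕ} (C : List (Gate {F : Fn m // Simple F}))
    (g : Gate {F : Fn m // Simple F}) (x : Graph m) :
    circ_gv (C ++ [g]) C.length x = g.val (fun e => e.1 x) (run (fun e => e.1 x) C) := by
  unfold circ_gv
  rw [circ_run_append, List.getD_append_right _ _ _ _ (by rw [circ_run_length]),
    circ_run_length]
  simp

theorem circ_out {m : ℕ} (C : List (Gate {F : Fn m // Simple F}))
    (g : Gate {F : Fn m // Simple F}) (x : Graph m) :
    out (fun e : {F : Fn m // Simple F} => e.1 x) (C ++ [g]) =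
      g.val (fun e => e.1 x) (run (fun e => e.1 x) C) := by
  unfold out
  rw [circ_run_append]
  simp [List.getLastD_eq_getLast?]

/-- make a function available as a gate -/
theorem circ_ensure {m : ℕ} (C : List (Gate {F : Fn m // Simple F})) (hC : ∀ g ∈ C, g.Mono)
    (F : Fn m) (hF : Simple F ∨ ∃ j < C.length, ∀ x, circ_gv C j x = F x) :
    ∃ C' : List (Gate {F : Fn m // Simple F}), (∀ g ∈ C', g.Mono) ∧
      C.length ≤ C'.length ∧ C'.length ≤ C.length + 1 ∧
      (∀ j < C.length, ∀ x, circ_gv C' j x = circ_gv C j x) ∧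
      ∃ j < C'.length, ∀ x, circ_gv C' j x = F x := by
  rcases hF with hF | hF
  · refine ⟨C ++ [Gate.input ⟨F, hF⟩], ?_, by simp, by simp, ?_, C.length, by simp, ?_⟩
    · intro g hg
      rw [List.mem_append] at hg
      rcases hg with hg | hg
      · exact hC g hg
      · rw [List.mem_singleton] at hg
        rw [hg]
        trivial
    · intro j hj x
      exact circ_gv_lt _ _ hj x
    · intro x
      rw [circ_gv_eq]
      rfl
  · exact ⟨C, hC, le_refl _, Nat.le_succ _, fun _ _ _ => rfl, hF⟩

/-- a nondecreasing function of two functions is given by a monotone function of two reals -/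
theorem circ_phi {m : ℕ} {F₁ F₂ G : Fn m} (h : Gen F₁ F₂ G) :
    ∃ φ : ℝ → ℝ → ℝ, (∀ a b c d : ℝ, a ≤ b → c ≤ d → φ a c ≤ φ b d) ∧
      ∀ x, φ (F₁ x) (F₂ x) = G x := by
  classical
  have hne : (Finset.univ : Finset (Graph m)).Nonempty := Finset.univ_nonempty
  let m0 : ℝ := Finset.univ.inf' hne G
  have hm0 : ∀ p, m0 ≤ G p := fun p => Finset.inf'_le G (Finset.mem_univ p)
  refine ⟨fun a c => Finset.univ.sup' hne fun p => if F₁ p ≤ a ∧ F₂ p ≤ c then G p else m0,
    ?_, ?_⟩
  · intro a b c d hab hcd
    apply Finset.sup'_le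
    intro p _
    refine le_trans ?_ (Finset.le_sup' (fun p => if F₁ p ≤ b ∧ F₂ p ≤ d then G p else m0)
      (Finset.mem_univ p))
    by_cases h1 : F₁ p ≤ a ∧ F₂ p ≤ c
    · rw [if_pos h1, if_pos ⟨h1.1.trans hab, h1.2.trans hcd⟩]
    · rw [if_neg h1]
      split_ifs
      · exact hm0 p
      · exact le_rfl
  · intro x
    apply le_antisymm
    · apply Finset.sup'_le
      intro p _
      split_ifs with h1
      · exact h p x h1.1 h1.2
      · exact hm0 x
    · refine le_trans ?_ (Finset.le_sup' (fun p => if F₁ p ≤ F₁ x ∧ F₂ p ≤ F₂ x then G p else m0)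
        (Finset.mem_univ x))
      simp

theorem circ_main {m : ℕ} {N : ℕ} {𝓖 : Set (Fn m)} (h : Ext {F : Fn m | Simple F} N 𝓖) :
    ∃ C : List (Gate {F : Fn m // Simple F}), (∀ g ∈ C, g.Mono) ∧ C.length ≤ 3 * N ∧
      ∀ F ∈ 𝓖, Simple F ∨ ∃ j < C.length, ∀ x, circ_gv C j x = F x := by
  induction h with
  | refl => exact ⟨[], by simp, by simp, fun F hF => Or.inl hF⟩
  | @step N 𝓖 F₁ F₂ G h h₁ h₂ hG ih =>
    obtain ⟨C, hC, hl, hF⟩ := ih
    obtain ⟨C1, m1, l1, u1, k1, j1, hj1, e1⟩ := circ_ensure C hC F₁ (hF F₁ h₁)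
    have hF2 : Simple F₂ ∨ ∃ j < C1.length, ∀ x, circ_gv C1 j x = F₂ x := by
      rcases hF F₂ h₂ with h3 | ⟨j, hj, h3⟩
      · exact Or.inl h3
      · exact Or.inr ⟨j, lt_of_lt_of_le hj l1, fun x => by rw [k1 j hj x, h3 x]⟩
    obtain ⟨C2, m2, l2, u2, k2, j2, hj2, e2⟩ := circ_ensure C1 m1 F₂ hF2
    obtain ⟨φ, hφ, hφG⟩ := circ_phi hG
    have e1' : ∀ x, circ_gv C2 j1 x = F₁ x := fun x => by rw [k2 j1 hj1 x, e1 x]
    refine ⟨C2 ++ [Gate.op φ j1 j2], ?_, ?_, ?_⟩
    · intro g hg
      rw [List.mem_append] at hg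
      rcases hg with hg | hg
      · exact m2 g hg
      · rw [List.mem_singleton] at hg
        rw [hg]
        exact hφ
    · simp only [List.length_append, List.length_singleton]
      omega
    · intro F hFm
      rcases hFm with rfl | hFm
      · right
        refine ⟨C2.length, by simp, ?_⟩
        intro x
        rw [circ_gv_eq]
        have a1 := e1' x
        have a2 := e2 x
        unfold circ_gv at a1 a2
        change φ ((run (fun e => e.1 x) C2).getD j1 0) ((run (fun e => e.1 x) C2).getD j2 0) = F x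
        rw [a1, a2]
        exact hφG x
      · rcases hF F hFm with h3 | ⟨j, hj, h3⟩
        · exact Or.inl h3
        · right
          have hj1' : j < C1.length := lt_of_lt_of_le hj l1
          have hj2' : j < C2.length := lt_of_lt_of_le hj1' l2
          refine ⟨j, ?_, ?_⟩
          · simp only [List.length_append, List.length_singleton]
            omega
          · intro x
            rw [circ_gv_lt _ _ hj2' x, k2 j hj1' x, k1 j hj x, h3 x]

theorem st_CIRC : ST_CIRC := by
  intro m N 𝓖 G h hG
  obtain ⟨C, hC, hl, hF⟩ := circ_main h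
  rcases hF G hG with h3 | ⟨j, hj, h3⟩
  · refine ⟨[Gate.input ⟨G, h3⟩], ?_, by simp, ?_⟩
    · intro g hg
      rw [List.mem_singleton] at hg
      rw [hg]
      trivial
    · intro p
      have := circ_out ([] : List (Gate {F : Fn m // Simple F})) (Gate.input ⟨G, h3⟩) p
      rw [List.nil_append] at this
      rw [this]
      rfl
  · refine ⟨C ++ [Gate.op (fun a _ => a) j j], ?_, ?_, ?_⟩
    · intro g hg
      rw [List.mem_append] at hg
      rcases hg with hg | hg
      · exact hC g hg
      · rw [List.mem_singleton] at hg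
        rw [hg]
        intro a b c d hab _
        exact hab
    · simp only [List.length_append, List.length_singleton]
      omega
    · intro p
      rw [circ_out]
      have a1 := h3 p
      unfold circ_gv at a1
      exact a1

end Pool.Agent.Helper31.BC
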